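import Mathlib
import Pool.Agent.H86.PG.Main

set_option autoImplicit false

/-!
Residually finite p-groups in which all finite-index subgroups generated by two conjugate
elements of order p have bounded index.
-/

namespace Pool.Agent.Results.MP_725c80_al.BoundedTwoGenerator

open Subgroup

/-- Let `G` be an infinite residually finite `p`-group.  If there is a bound for the (finite)
indices of the finite-index subgroups generated by two conjugate elements of order `p`
(`Subgroup.index` is `0` for a subgroup of infinite index), then `G` has a subgroup which is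
infinite and of infinite index. -/
theorem result (p : ℕ) (hp : p.Prime) (G : Type) [Group G] (hinf : Infinite G)
    (hG : IsPGroup p G)
    (hRF : ∀ g : G, g ≠ 1 → ∃ N : Subgroup G, N.Normal ∧ N.index ≠ 0 ∧ g ∉ N)
    (hbound : ∃ n : ℕ, ∀ a x : G, orderOf a = p → (closure {a, x⁻¹ * a * x}).index ≤ n) :
    ∃ H : Subgroup G, (H : Set G).Infinite ∧ H.index = 0 := by
  haveI : Fact p.Prime := ⟨hp⟩
  by_contra hc
  push Not at hc
  have hfin : ∀ H : Subgroup G, (H : Set G).Finite ∨ H.index ≠ 0 := by
    intro H
    by_cases h : (H : Set G).Finite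
    · exact Or.inl h
    · exact Or.inr (hc H h)
  obtain ⟨n, hn⟩ := hbound
  obtain ⟨a, hap, ha⟩ := H86.PG.exists_elem hG hRF hfin
  obtain ⟨x, hx1, hx2⟩ := H86.PG.unbounded hG hRF hfin hap ha (n + 1)
  have := hn a x hap
  omega

/-- In particular the answer to the question is negative for `p = 2`. -/
theorem two (G : Type) [Group G] (hinf : Infinite G) (hG : IsPGroup 2 G)
    (hRF : ∀ g : G, g ≠ 1 → ∃ N : Subgroup G, N.Normal ∧ N.index ≠ 0 ∧ g ∉ N) :
    ∃ H : Subgroup G, (H : Set G).Infinite ∧ H.index = 0 := by
  haveI : Fact (Nat.Prime 2) := ⟨Nat.prime_two⟩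
  by_contra hc
  push Not at hc
  have hfin : ∀ H : Subgroup G, (H : Set G).Finite ∨ H.index ≠ 0 := by
    intro H
    by_cases h : (H : Set G).Finite
    · exact Or.inl h
    · exact Or.inr (hc H h)
  exact H86.PG.p_ne_two hG hRF hfin rfl

end Pool.Agent.Results.MP_725c80_al.BoundedTwoGenerator
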