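import Mathlib
import Pool.Agent.H67.PG.Quot

set_option autoImplicit false

/-!
Torsion Golod-Shafarevich groups, growth of the augmentation powers and the number of generators
of subgroups of finite index, for p-groups whose subgroups are finite or of finite index.
-/

namespace Pool.Agent.Results.MP_725c80_al.GolodShafarevich

open Subgroup Filter Pool.Agent.H67.PG

/-- the power `Δ^n` of the augmentation ideal of the group algebra `F_p[X]` (for `n > 0`), as a
subspace: the `n`-th power of the span of all `x - 1`. -/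
noncomputable abbrev Δ (p : ℕ) (X : Type) [Group X] (n : ℕ) :
    Submodule (ZMod p) (MonoidAlgebra (ZMod p) X) :=
  (Submodule.span (ZMod p) (Set.range fun x : X => MonoidAlgebra.of (ZMod p) X x - 1)) ^ n

/-- Generalised Golod-Shafarevich groups: `G` has a presentation with generators `x_1, ..., x_d`
of weights `e j ≥ 1` and (finitely or infinitely many) relators `ρ i` of weighted degree at least
`deg i ≥ 1`, such that `1 - ∑ t ^ (e j) + ∑ t ^ (deg i) ≤ 0` for some real number `0 < t < 1`.
Here `W p x e n` is the span of all `a (x_{j_1} - 1) ⋯ (x_{j_k} - 1)` with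
`e_{j_1} + ... + e_{j_k} ≥ n` in `F_p` of the free group, and `ρ` has degree at least `n` if
`ρ - 1 ∈ W p x e n`.  The classical Golod-Shafarevich condition is the case `e j = 1`. -/
def IsGGS (p : ℕ) (G : Type) [Group G] : Prop :=
  ∃ (d : ℕ) (φ : FreeGroup (Fin d) →* G) (e : Fin d → ℕ+) (ι : Type)
    (ρ : ι → FreeGroup (Fin d)) (deg : ι → ℕ+) (t : ℝ),
      Function.Surjective φ ∧ φ.ker = normalClosure (Set.range ρ) ∧
      (∀ i, MonoidAlgebra.of (ZMod p) (FreeGroup (Fin d)) (ρ i) - 1 ∈
        W p FreeGroup.of e (deg i)) ∧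
      0 < t ∧ t < 1 ∧ (Summable fun i => t ^ (deg i : ℕ)) ∧
      1 - ∑ j, t ^ (e j : ℕ) + ∑' i, t ^ (deg i : ℕ) ≤ 0

/-- every nontrivial element is outside some normal subgroup of finite index -/
def ResiduallyFinite (G : Type) [Group G] : Prop :=
  ∀ g : G, g ≠ 1 → ∃ N : Subgroup G, N.Normal ∧ N.index ≠ 0 ∧ g ∉ N

theorem result (p : ℕ) (hp : p.Prime) (G : Type) [Group G] (hG : IsPGroup p G) :
    -- (1) generalised Golod-Shafarevich groups
    (IsGGS p G → ∃ H : Subgroup G, (H : Set G).Infinite ∧ H.index = 0) ∧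
    -- (2) residually finite generalised Golod-Shafarevich groups all of whose finitely generated
    -- subgroups are finite or of finite index
    (IsGGS p G → ResiduallyFinite G →
      (∀ K : Subgroup G, K.FG → (K : Set G).Finite ∨ K.index ≠ 0) →
      ∃ E : Subgroup G, (E : Set G).Infinite ∧ (∀ x ∈ E, ∀ y ∈ E, x * y = y * x) ∧
        ∀ x ∈ E, x ^ p = 1) ∧
    -- (3) all infinite residually finite p-groups
    (Infinite G → ResiduallyFinite G →
      (∃ H : Subgroup G, (H : Set G).Infinite ∧ H.index = 0) ∨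
      ((∀ M : Subgroup G, M.index ≠ 0 → ∃ z : Fin (p - 1) → G, (∀ i, z i ∈ M) ∧
          (closure (Set.range z)).index ≠ 0) ∧
        (∀ M : Subgroup G, M.index ≠ 0 → ∃ z : Fin p → G, (∀ i, z i ∈ M) ∧
          (∀ i, orderOf (z i) = p) ∧ (closure (Set.range z)).index ≠ 0) ∧
        (∀ c : ℝ, 1 < c → ∀ᶠ n : ℕ in atTop,
          Module.Finite (ZMod p) (MonoidAlgebra (ZMod p) G ⧸ Δ p G n) ∧
          (Module.finrank (ZMod p) (MonoidAlgebra (ZMod p) G ⧸ Δ p G n) : ℝ) < c ^ n))) := by
  have : Fact p.Prime := ⟨hp⟩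
  have h1 : IsGGS p G → ∃ H : Subgroup G, (H : Set G).Infinite ∧ H.index = 0 := by
    rintro ⟨d, φ, e, ι, ρ, deg, t, hφ, hker, hdeg, ht, ht1, hsum, hgs⟩
    exact ggs_group hG φ hφ e ρ deg hker hdeg ht ht1 hsum (by linarith)
  refine ⟨h1, ?_, ?_⟩
  · intro hGS hRF hEJ
    obtain ⟨H, hH, hHi⟩ := h1 hGS
    obtain ⟨E, -, hE⟩ := exists_elementary hG hRF hH (fun K hK hKfg => by
      rcases hEJ K hKfg with h | h
      · exact h
      · exfalso
        apply h
        have := index_dvd_of_le hK
        rw [hHi, zero_dvd_iff] at this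
        exact this)
    exact ⟨E, hE⟩
  · intro hinf hRF
    by_cases hcon : ∃ H : Subgroup G, (H : Set G).Infinite ∧ H.index = 0
    · exact Or.inl hcon
    · right
      push Not at hcon
      have hfin : ∀ H : Subgroup G, (H : Set G).Finite ∨ H.index ≠ 0 := by
        intro H
        by_cases h : (H : Set G).Finite
        · exact Or.inl h
        · exact Or.inr (hcon H h)
      exact ⟨fun M hM => deep hG hRF hfin hM, fun M hM => deep_order hG hRF hfin hM,
        fun c hc => growth_subexp hG hRF hfin hc⟩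

end Pool.Agent.Results.MP_725c80_al.GolodShafarevich
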