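import Mathlib
import Pool.Agent.H24.CX.FinB

set_option autoImplicit false

/-!
Residually finite p-groups acting with slowly growing orbits; in particular finitely generated
p-subgroups of contracting self-similar groups.
-/

namespace Pool.Agent.Results.MP_725c80_al.SlowOrbits

open Pool.Agent.H24.CX

/-- every nontrivial element is outside some normal subgroup of finite index -/
def ResiduallyFinite (G : Type) [Group G] : Prop :=
  ∀ g : G, g ≠ 1 → ∃ N : Subgroup G, N.Normal ∧ N.index ≠ 0 ∧ g ∉ N

/-- the products of at most `r` elements of `S` -/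
def products {G : Type} [Group G] (S : Set G) (r : ℕ) : Set G :=
  {g | ∃ l : List G, l.length ≤ r ∧ (∀ x ∈ l, x ∈ S) ∧ l.prod = g}

/-- `G` has a subgroup that is infinite and of infinite index -/
def HasMiddle (G : Type) [Group G] : Prop :=
  ∃ K : Subgroup G, (K : Set G).Infinite ∧ K.index = 0

/-- `H` acts self-similarly on the words over `X`: `g (x v) = (act g x) (sec g x v)` for all letters
`x` and words `v`; see `SSim.word` (the action on words) and `SSim.secw` (the section of an element
at a word) in `H24/CX/Defs.lean`. The action is faithful if only `1` fixes all words. -/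
abbrev SelfSimilar (H X : Type) [Group H] := SSim H X

/-- one finite set contains the sections of every element at all words that are long enough -/
def Contracting {H X : Type} [Group H] (A : SelfSimilar H X) : Prop :=
  ∃ N : Set H, N.Finite ∧ ∀ g : H, ∃ n : ℕ, ∀ v : List X, n ≤ v.length → A.secw g v ∈ N

/-- (1) An infinite residually finite `p`-group with a finite generating set `S` which acts on a
set, faithfully or with orbits of unbounded size, such that the sets `products S r • ξ` have at most
`C exp (c √r)` points, where `c < log p / √(p - 1)`, has an infinite subgroup of infinite index.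
(2) In particular this holds for every finitely generated infinite `p`-subgroup of a contracting
self-similar group. -/
theorem result (p : ℕ) (hp : p.Prime) :
    (∀ (G : Type) [Group G], Infinite G → IsPGroup p G → ResiduallyFinite G →
      ∀ S : Set G, S.Finite → Subgroup.closure S = ⊤ →
      ∀ (Ω : Type) [MulAction G Ω],
        (FaithfulSMul G Ω ∨
          ∀ n : ℕ, ∃ ξ : Ω, (MulAction.orbit G ξ).Infinite ∨ n < (MulAction.orbit G ξ).ncard) →
      ∀ C c : ℝ, c * Real.sqrt ((p : ℝ) - 1) < Real.log p →
        (∀ (ξ : Ω) (r : ℕ), (((fun g : G => g • ξ) '' products S r).ncard : ℝ) ≤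
          C * Real.exp (c * Real.sqrt (r : ℝ))) →
      HasMiddle G) ∧
    (∀ (H X : Type) [Group H] [Finite X] (A : SelfSimilar H X), A.Faithful → Contracting A →
      ∀ G : Subgroup H, G.FG → Infinite G → IsPGroup p G → HasMiddle G) := by
  have hpp : Fact p.Prime := ⟨hp⟩
  refine ⟨?_, ?_⟩
  · intro G _ hinf hG hRF S hSf hS Ω _ hΩ C c hc h
    exact slow_orbits' hG hRF hSf hS hΩ hc h
  · rintro H X _ _ A hA ⟨N, hN, hc⟩ G ⟨S, rfl⟩ hinf hG
    obtain ⟨K, hK1, hK2, hK3⟩ :=
      contracting A hA hN hc S.finite_toSet hG (Set.infinite_coe_iff.1 hinf)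
    refine ⟨K.subgroupOf _, ?_, hK3⟩
    intro hf
    refine hK2 (Set.Finite.subset (hf.image Subtype.val) ?_)
    intro x hx
    exact ⟨⟨x, hK1 hx⟩, hx, rfl⟩

end Pool.Agent.Results.MP_725c80_al.SlowOrbits
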